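import Pool.Agent.H8.AV3.Stmts2

/-!
# Board `av3b`, module CLI
-/

set_option autoImplicit false

namespace Pool.Agent.H49.AV3B

open Polynomial Matrix Pool.AVR Pool.AV3 WeierstrassCurve.Affine

section

variable {K : Type} [Field K]

theorem onC_of {a b c x y : K} (h : (E a b c).toAffine.Nonsingular x y) : OnC a b c x y := by
  have := (WeierstrassCurve.Affine.equation_iff x y).1 h.1
  simp only [E] at this
  unfold OnC
  linear_combination this

/-- the flex of `FO` -/
theorem tev_FO_flex (a b c s t : K) :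
    tev (FO a b c) (s • (![0, 1, 0] : Fin 3 → K) + t • (![1, 0, 0] : Fin 3 → K)) = t ^ 3 := by
  simp only [tev, FO, Pi.add_apply, Pi.smul_apply, smul_eq_mul, Matrix.cons_val]
  ring

theorem mulVec_indep {g : Matrix (Fin 3) (Fin 3) K} (hg : IsUnit g.det) :
    (g *ᵥ (![0, 1, 0] : Fin 3 → K)) ≠ 0 ∧
      ∀ r : K, g *ᵥ (![1, 0, 0] : Fin 3 → K) ≠ r • (g *ᵥ (![0, 1, 0] : Fin 3 → K)) := by
  have hinj : ∀ v w : Fin 3 → K, g *ᵥ v = g *ᵥ w → v = w := by
    intro v w h
    have h1 : g⁻¹ *ᵥ (g *ᵥ v) = g⁻¹ *ᵥ (g *ᵥ w) := by rw [h]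
    rwa [Matrix.mulVec_mulVec, Matrix.mulVec_mulVec, Matrix.nonsing_inv_mul g hg,
      Matrix.one_mulVec, Matrix.one_mulVec] at h1
  constructor
  · intro h
    have h1 := hinj (![0, 1, 0]) 0 (by rw [h, Matrix.mulVec_zero])
    have h2 := congrFun h1 1
    simp at h2
  · intro r h
    rw [← Matrix.mulVec_smul] at h
    have h1 := hinj _ _ h
    have h2 := congrFun h1 0
    simp at h2

end

/-- if the form of an affine point is equivalent to that of the point at infinity -/
theorem flex_aff (hFLX : FLXStmt) (hDSC : DSCStmt) {K : Type} [Field K] [DecidableEq K]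
    [Infinite K] (h2 : (2 : K) ≠ 0) {a b c : K} (hd : disc a b c ≠ 0) {x y : K}
    (h : (E a b c).toAffine.Nonsingular x y) {a' b' c' : K} {g : Matrix (Fin 3) (Fin 3) K}
    (hg : Eqv g (FP a b x y) (FO a' b' c')) :
    ∃ T : Pt a b c, (Point.some x y h : Pt a b c) = T + T + T := by
  have hsep : (cub a b c).Separable := ((hDSC K h2 a b c).1).2 hd
  obtain ⟨hA, hB⟩ := mulVec_indep hg.1
  refine hFLX K h2 a b c hsep x y h _ _ g.det hA hB fun s t => ?_
  rw [← Matrix.mulVec_smul, ← Matrix.mulVec_smul, ← Matrix.mulVec_add, hg.tev, tev_FO_flex]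

theorem cli_thm (hINJ : Pool.AV3.INJStmt) (hFLX : FLXStmt) (hDSC : DSCStmt) : CLIStmt := by
  intro K _ _ _ h2 f hd h3 Q Q' ⟨g, hg⟩
  obtain ⟨a, b, c⟩ := f
  change disc a b c ≠ 0 at hd
  have hsep : (cub a b c).Separable := ((hDSC K h2 a b c).1).2 hd
  match Q, Q' with
  | .zero, .zero =>
    refine ⟨0, ?_⟩
    change (0 : Pt a b c) - 0 = 0 + 0 + 0
    simp
  | .some x y h, .zero =>
    obtain ⟨T, hT⟩ := flex_aff hFLX hDSC h2 hd h hg
    refine ⟨T, ?_⟩
    change (Point.some x y h : Pt a b c) - 0 = T + T + T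
    rw [hT, sub_zero]
  | .zero, .some x' y' h' =>
    obtain ⟨T, hT⟩ := flex_aff hFLX hDSC h2 hd h' hg.symm
    refine ⟨-T, ?_⟩
    change (0 : Pt a b c) - (Point.some x' y' h' : Pt a b c) = -T + -T + -T
    rw [hT]
    abel
  | .some x y h, .some x' y' h' =>
    obtain ⟨T, η, h'', e1, e2, -, e4, -, -⟩ :=
      hINJ K h2 a b c a b c hsep x y h x' y' (onC_of h') g hg
    have hη : η = 0 := by
      have h5 : (3 : K) * η = 0 := by linear_combination -e1
      rcases h3 with h3 | h3
      · exact (mul_eq_zero.mp h5).resolve_left h3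
      · have h6 : 2 * a * η = 0 := by linear_combination -e2 - η * h5
        rcases mul_eq_zero.mp h6 with h7 | h7
        · exact absurd h7 (mul_ne_zero h2 h3)
        · exact h7
    subst hη
    refine ⟨T, ?_⟩
    have e5 : (Point.some (x' + 0) y' h'' : Pt a b c) = Point.some x' y' h' := by
      simp
    rw [e5] at e4
    rw [← e4]
    abel

end Pool.Agent.H49.AV3B
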