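import Pool.Agent.H8.AV3.Stmts2

/-!
# Board `av3b`, module CLT
-/

set_option autoImplicit false

namespace Pool.Agent.H49.AV3B.CLT

open Polynomial Matrix Pool.AVR Pool.AV3 WeierstrassCurve.Affine

theorem onC_of {K : Type} [Field K] {a b c x y : K} (h : (E a b c).toAffine.Nonsingular x y) :
    OnC a b c x y := by
  have := (WeierstrassCurve.Affine.equation_iff x y).1 h.1
  simp only [E] at this
  unfold OnC
  linear_combination this

theorem phi_ne_zero {K : Type} [Field K] [DecidableEq K] {a b c : K} (x₀ y₀ : K)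
    (T : Pt a b c) : phi x₀ y₀ T ≠ 0 := by
  match T with
  | .zero =>
    intro h
    have := congrFun h 1
    simp [phi] at this
  | .some x y _ =>
    intro h
    simp only [phi] at h
    split_ifs at h with hxy
    · have := congrFun h 0
      simp at this
    · have := congrFun h 2
      simp at this

/-- a point of `3 E(K)` -/
theorem three (hFLT : FLTStmt) (hSMO : SMOStmt) (hWNG : WNGStmt) (hJER : JERStmt)
    (hDSC : DSCStmt) {K : Type} [Field K] [DecidableEq K] [Infinite K] (h2 : (2 : K) ≠ 0)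
    {a b c : K} (hd : disc a b c ≠ 0) {x y : K} (h : (E a b c).toAffine.Nonsingular x y)
    (T : Pt a b c) (hT : (Point.some x y h : Pt a b c) = T + T + T) :
    ∃ g, Eqv g (FP a b x y) (FO a b c) := by
  have hsep : (cub a b c).Separable := ((hDSC K h2 a b c).1).2 hd
  obtain ⟨w, κ, hw, hκ⟩ := hFLT K h2 a b c hsep x y h T hT
  have hsm := hSMO K (AlgebraicClosure K) (algebraMap K (AlgebraicClosure K)) h2 (a, b, c) hd
    (Point.some x y h : Pt a b c)
  obtain ⟨g, f'', hg⟩ := hWNG K h2 (FP a b x y) hsm (phi x y T) w κ (phi_ne_zero x y T) hw hκ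
  have hτ : (2 : K) * 2⁻¹ = 1 := mul_inv_cancel₀ h2
  obtain ⟨η, hη⟩ := hJER K (2⁻¹ : K) hτ g _ _ hg
  have hf : f'' = sh η (a, b, c) := by
    have e1 := Jc_FO (2⁻¹ : K) f''.1 f''.2.1 f''.2.2 hτ
    have e2 := Jc_FP (2⁻¹ : K) a b c x y hτ (onC_of h)
    rw [e1, e2] at hη
    exact hη
  have h3 := Eqv_FO_sh a b c η
  rw [← hf] at h3
  exact ⟨_, hg.trans h3.symm⟩

end Pool.Agent.H49.AV3B.CLT

namespace Pool.Agent.H49.AV3B

open Polynomial Matrix Pool.AVR Pool.AV3 WeierstrassCurve.Affine

theorem clt_thm (hTRS : TRSStmt) (hFLT : FLTStmt) (hSMO : SMOStmt) (hWNG : WNGStmt)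
    (hJER : JERStmt) (hDSC : DSCStmt) : CLTStmt := by
  intro K _ _ _ h2 f hd Q T
  obtain ⟨a, b, c⟩ := f
  change disc a b c ≠ 0 at hd
  change Pt a b c at Q T
  have hsep : (cub a b c).Separable := ((hDSC K h2 a b c).1).2 hd
  match Q with
  | .some x y h =>
    by_cases hT : (Point.some x y h : Pt a b c) = T + T + T
    · obtain ⟨g, hg⟩ := CLT.three hFLT hSMO hWNG hJER hDSC h2 hd h T hT
      refine ⟨g, ?_⟩
      have e : (Point.some x y h : Pt a b c) - (T + T + T) = 0 := by rw [hT, sub_self]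
      rw [e]
      exact hg
    · obtain ⟨x', y', h', g, e, hg, -⟩ := hTRS K h2 a b c hsep x y h T hT
      refine ⟨g, ?_⟩
      rw [← e]
      exact hg
  | .zero =>
    have hz : ∀ R : Pt a b c, R = 0 - (T + T + T) →
        ∃ g, Eqv g (FQ (f := (a, b, c)) (Point.zero : Pt a b c)) (FQ (f := (a, b, c)) R) := by
      intro R hR
      match R with
      | .zero => exact ⟨1, Eqv.refl _⟩
      | .some x y h =>
        have hT : (Point.some x y h : Pt a b c) = -T + -T + -T := by
          rw [hR]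
          abel
        obtain ⟨g, hg⟩ := CLT.three hFLT hSMO hWNG hJER hDSC h2 hd h (-T) hT
        exact ⟨g⁻¹, hg.symm⟩
    exact hz _ rfl

end Pool.Agent.H49.AV3B
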